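import Mathlib

/-!
# Plastic dense sigma-compact k-crowded subspaces

Every k-crowded separable metric space `Y` has a dense, sigma-compact, k-crowded subspace `X`
such that the identity is the only non-expansive bijection of `X`; so `X` is plastic.
-/

open Set Filter Topology

namespace Pool.Agent.Results.MP_4aa5c9_gt.KCrowdedPlastic

universe u

/-- Every nonempty open set contains an uncountable compact set. -/
def KCrowded (Z : Type u) [TopologicalSpace Z] : Prop :=
  ∀ U : Set Z, IsOpen U → U.Nonempty → ∃ K : Set Z, K ⊆ U ∧ IsCompact K ∧ ¬ K.Countable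

/-- A metric space is plastic if every non-expansive bijection of it is an isometry. -/
def Plastic (X : Type u) [MetricSpace X] : Prop :=
  ∀ f : X → X, Function.Bijective f → (∀ x y, dist (f x) (f y) ≤ dist x y) → Isometry f

/-- the Cantor space -/
abbrev C : Type := ℕ → Bool

/-- cylinders -/
def Cyl (s : List Bool) : Set C := {x | ∀ j, j < s.length → x j = s.getD j false}

/-- initial segments -/
def ini (x : C) (l : ℕ) : List Bool := List.ofFn fun i : Fin l => x i

lemma ini_length (x : C) (l : ℕ) : (ini x l).length = l := by simp [ini]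

lemma mem_ini {x y : C} {l : ℕ} : y ∈ Cyl (ini x l) ↔ ∀ j < l, y j = x j := by
  unfold Cyl
  simp only [mem_ofPred_eq, ini_length]
  refine forall₂_congr fun j hj => ?_
  have : (ini x l).getD j false = x j := by
    rw [List.getD_eq_getElem _ _ (by rw [ini_length]; exact hj)]
    simp [ini]
  rw [this]

lemma isClosed_Cyl (s : List Bool) : IsClosed (Cyl s) := by
  have : Cyl s = ⋂ (j : ℕ) (_ : j < s.length), {x | x j = s.getD j false} := by
    ext x; simp [Cyl]
  rw [this]
  exact isClosed_iInter fun j => isClosed_iInter fun _ =>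
    isClosed_eq (continuous_apply j) continuous_const

lemma Cyl_congr {s : List Bool} {x y : C} (h : ∀ j < s.length, x j = y j) (hx : x ∈ Cyl s) :
    y ∈ Cyl s := fun j hj => by rw [← h j hj]; exact hx j hj

lemma isOpen_Cyl (s : List Bool) : IsOpen (Cyl s) := by
  have : Cyl s = ⋂ j ∈ Finset.range s.length, {x | x j = s.getD j false} := by
    ext x; simp [Cyl]
  rw [this]
  refine isOpen_biInter_finset fun j _ => ?_
  have h1 : Continuous fun x : C => x j := continuous_apply j
  exact (isOpen_discrete ({s.getD j false} : Set Bool)).preimage h1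

/-- basic neighbourhoods -/
lemma exists_ini {x : C} {U : Set C} (hU : IsOpen U) (hx : x ∈ U) :
    ∃ l, Cyl (ini x l) ⊆ U := by
  obtain ⟨I, u, hu, huU⟩ := isOpen_pi_iff.1 hU x hx
  refine ⟨I.sup id + 1, fun y hy => huU ?_⟩
  intro j hj
  have h1 : j ≤ I.sup id := Finset.le_sup (f := id) hj
  rw [mem_ini.1 hy j (by omega)]
  exact (hu j hj).2

section moduli

variable {Y : Type u} [MetricSpace Y]

lemma unif {h : C → Y} (hc : Continuous h) {γ : ℝ} (hγ : 0 < γ) :
    ∃ l, ∀ x x' : C, (∀ j < l, x j = x' j) → dist (h x) (h x') < γ := by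
  by_contra hcon
  push Not at hcon
  choose x x' h1 h2 using hcon
  obtain ⟨a, -, φ, hφ, ha⟩ := isCompact_univ.tendsto_subseq (x := x) fun _ => mem_univ _
  have ha' : Tendsto (x' ∘ φ) atTop (𝓝 a) := by
    rw [tendsto_pi_nhds] at ha ⊢
    intro j
    refine (ha j).congr' ?_
    filter_upwards [eventually_gt_atTop j] with n hn
    exact h1 (φ n) j (lt_of_lt_of_le hn (hφ.id_le n))
  have h3 : Tendsto (fun n => dist (h (x (φ n))) (h (x' (φ n)))) atTop (𝓝 (dist (h a) (h a))) :=
    ((hc.tendsto a).comp ha).dist ((hc.tendsto a).comp ha')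
  rw [dist_self] at h3
  have h4 := ge_of_tendsto' h3 fun n => h2 (φ n)
  linarith

lemma sepr {h : C → Y} (hc : Continuous h) (hi : Function.Injective h) (k : ℕ) :
    ∃ γ > 0, ∀ x x' : C, (∃ j < k, x j ≠ x' j) → γ ≤ dist (h x) (h x') := by
  set A : Set (C × C) := {p | ∃ j < k, p.1 j ≠ p.2 j} with hA
  have hAc : IsClosed A := by
    have : A = ⋃ j ∈ Finset.range k, {p : C × C | p.1 j ≠ p.2 j} := by
      ext p; simp [hA]
    rw [this]
    refine isClosed_biUnion_finset fun j _ => ?_
    have h1 : Continuous fun p : C × C => (p.1 j, p.2 j) := by fun_prop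
    exact (isClosed_discrete {q : Bool × Bool | q.1 ≠ q.2}).preimage h1
  rcases A.eq_empty_or_nonempty with hE | hne
  · refine ⟨1, one_pos, fun x x' hx => ?_⟩
    have : (x, x') ∈ A := hx
    rw [hE] at this
    exact this.elim
  · obtain ⟨p, hp, hmin⟩ := hAc.isCompact.exists_isMinOn hne
      (f := fun p : C × C => dist (h p.1) (h p.2)) (by fun_prop)
    refine ⟨dist (h p.1) (h p.2), ?_, fun x x' hx => hmin (a := (x, x')) hx⟩
    refine dist_pos.2 fun heq => ?_
    obtain ⟨j, -, hj⟩ := hp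
    exact hj (congrFun (hi heq) j)

lemma exists_next {ψ : ℕ → C → Y} (hc : ∀ n, Continuous (ψ n))
    (hi : ∀ n, Function.Injective (ψ n)) (i B : ℕ) :
    ∃ B', 2 * B + 1 ≤ B' ∧ ∀ n ≤ i, ∀ m ≤ i, ∀ x x' y y' : C, (∀ j < B', x j = x' j) →
      (∃ j < 2 * B + 1, y j ≠ y' j) → dist (ψ n x) (ψ n x') < dist (ψ m y) (ψ m y') := by
  have h1 : ∀ n m : ℕ, ∃ l, ∀ x x' y y' : C, (∀ j < l, x j = x' j) →
      (∃ j < 2 * B + 1, y j ≠ y' j) → dist (ψ n x) (ψ n x') < dist (ψ m y) (ψ m y') := by
    intro n m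
    obtain ⟨γ, hγ, h2⟩ := sepr (hc m) (hi m) (2 * B + 1)
    obtain ⟨l, hl⟩ := unif (hc n) hγ
    exact ⟨l, fun x x' y y' hx hy => (hl x x' hx).trans_le (h2 y y' hy)⟩
  choose l hl using h1
  refine ⟨(2 * B + 1) + ((Finset.range (i + 1)) ×ˢ (Finset.range (i + 1))).sup
    (fun p => l p.1 p.2), by omega, fun n hn m hm x x' y y' hx hy => ?_⟩
  refine hl n m x x' y y' (fun j hj => hx j ?_) hy
  have : l n m ≤ ((Finset.range (i + 1)) ×ˢ (Finset.range (i + 1))).sup (fun p => l p.1 p.2) :=
    Finset.le_sup (f := fun p : ℕ × ℕ => l p.1 p.2) (b := (n, m))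
      (Finset.mem_product.2 ⟨Finset.mem_range.2 (by omega), Finset.mem_range.2 (by omega)⟩)
  omega

lemma exists_b {ψ : ℕ → C → Y} (hc : ∀ n, Continuous (ψ n))
    (hi : ∀ n, Function.Injective (ψ n)) :
    ∃ b : ℕ → ℕ, b 0 = 0 ∧ (∀ i, 2 * b i + 1 ≤ b (i + 1)) ∧
      ∀ i, ∀ n ≤ i, ∀ m ≤ i, ∀ x x' y y' : C, (∀ j < b (i + 1), x j = x' j) →
      (∃ j < 2 * b i + 1, y j ≠ y' j) → dist (ψ n x) (ψ n x') < dist (ψ m y) (ψ m y') := by
  choose nx h1 h2 using exists_next hc hi
  exact ⟨fun i => Nat.rec 0 (fun i B => nx i B) i, rfl, fun i => h1 i _, fun i => h2 i _⟩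

end moduli

/-! ### The thin sets -/

/-- the bookkeeping -/
noncomputable def code (i : ℕ) : ℕ × List Bool :=
  ((Encodable.decode (Nat.unpair i).1 : Option (ℕ × List Bool))).getD (0, [])

lemma code_surj (m : ℕ) (s : List Bool) (N : ℕ) : ∃ i ≥ N, code i = (m, s) := by
  refine ⟨Nat.pair (Encodable.encode (m, s)) N, Nat.right_le_pair _ _, ?_⟩
  simp [code, Encodable.encodek]

/-- the thin closed set number `m` -/
def T (b : ℕ → ℕ) (m : ℕ) : Set C :=
  {x | ∀ i j, b i ≤ j → j < b (i + 1) → x j = true →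
    j < 2 * b i + 1 ∧ (code i).1 = m ∧ (code i).2.length ≤ b i ∧ x ∈ Cyl (code i).2}

lemma isClosed_T (b : ℕ → ℕ) (m : ℕ) : IsClosed (T b m) := by
  have : T b m = ⋂ (i : ℕ) (j : ℕ) (_ : b i ≤ j) (_ : j < b (i + 1)),
      ({x | x j = false} ∪ {x | j < 2 * b i + 1 ∧ (code i).1 = m ∧ (code i).2.length ≤ b i ∧
        x ∈ Cyl (code i).2}) := by
    ext x
    simp only [T, mem_ofPred_eq, mem_iInter, mem_union]
    refine forall₄_congr fun i j _ _ => ?_
    cases x j <;> simp
  rw [this]
  refine isClosed_iInter fun i => isClosed_iInter fun j => isClosed_iInter fun _ =>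
    isClosed_iInter fun _ => IsClosed.union ?_ ?_
  · exact isClosed_eq (continuous_apply j) continuous_const
  · by_cases h : j < 2 * b i + 1 ∧ (code i).1 = m ∧ (code i).2.length ≤ b i
    · have e : {x : C | j < 2 * b i + 1 ∧ (code i).1 = m ∧ (code i).2.length ≤ b i ∧
          x ∈ Cyl (code i).2} = Cyl (code i).2 := by
        ext x
        simp only [mem_ofPred_eq]
        tauto
      rw [e]
      exact isClosed_Cyl _
    · have e : {x : C | j < 2 * b i + 1 ∧ (code i).1 = m ∧ (code i).2.length ≤ b i ∧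
          x ∈ Cyl (code i).2} = ∅ := by
        ext x
        simp only [mem_ofPred_eq, mem_empty_iff_false, iff_false]
        tauto
      rw [e]
      exact isClosed_empty

section main

variable {b : ℕ → ℕ} (hb0 : b 0 = 0) (hb : ∀ i, 2 * b i + 1 ≤ b (i + 1))

include hb in
lemma b_strict : StrictMono b := strictMono_nat_of_lt_succ fun i => by
  have := hb i; omega

include hb0 hb in
lemma exists_block (j : ℕ) : ∃ i, b i ≤ j ∧ j < b (i + 1) := by
  classical
  have h1 : ∃ i, j < b i := ⟨j + 1, lt_of_lt_of_le (Nat.lt_succ_self j) ((b_strict hb).id_le _)⟩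
  obtain ⟨i, hi⟩ : ∃ i, Nat.find h1 = i + 1 := by
    refine Nat.exists_eq_succ_of_ne_zero fun h => ?_
    have := Nat.find_spec h1
    rw [h, hb0] at this
    omega
  refine ⟨i, ?_, hi ▸ Nat.find_spec h1⟩
  exact not_lt.1 (Nat.find_min h1 (m := i) (by omega))

include hb in
lemma block_unique {i i' j : ℕ} (h1 : b i ≤ j) (h2 : j < b (i + 1)) (h3 : b i' ≤ j)
    (h4 : j < b (i' + 1)) : i = i' := by
  have hs := b_strict hb
  have a1 := hs.lt_iff_lt.1 (h1.trans_lt h4)
  have a2 := hs.lt_iff_lt.1 (h3.trans_lt h2)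
  omega

/-- modification of a point inside one block -/
def modi (x : C) (B : ℕ) (v : C) : C := fun j =>
  if j < B then x j else if j < 2 * B + 1 then v j else false

include hb in
lemma modi_mem {m i : ℕ} {s : List Bool} (hcode : code i = (m, s)) (hs : s.length ≤ b i)
    {x : C} (hx : x ∈ T b m) (hxs : x ∈ Cyl s) (v : C) :
    modi x (b i) v ∈ T b m ∧ modi x (b i) v ∈ Cyl s := by
  have hstr := b_strict hb
  have hagree : ∀ j < b i, modi x (b i) v j = x j := fun j hj => by
    unfold modi; rw [if_pos hj]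
  have hcs : modi x (b i) v ∈ Cyl s :=
    Cyl_congr (fun j hj => (hagree j (by omega)).symm) hxs
  refine ⟨?_, hcs⟩
  intro i' j h1 h2 h3
  rcases lt_trichotomy i' i with h | h | h
  · have h4 : b (i' + 1) ≤ b i := hstr.monotone h
    rw [hagree j (by omega)] at h3
    obtain ⟨c1, c2, c3, c4⟩ := hx i' j h1 h2 h3
    refine ⟨c1, c2, c3, Cyl_congr (fun k hk => (hagree k ?_).symm) c4⟩
    omega
  · subst h
    rw [hcode]
    refine ⟨?_, rfl, hs, hcs⟩
    by_contra hcon
    unfold modi at h3
    rw [if_neg (by omega), if_neg hcon] at h3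
    exact Bool.false_ne_true h3
  · have h4 : b (i + 1) ≤ b i' := hstr.monotone h
    have h5 := hb i
    unfold modi at h3
    rw [if_neg (by omega), if_neg (by omega)] at h3
    exact absurd h3 Bool.false_ne_true

variable {Y : Type u} [MetricSpace Y] {ψ : ℕ → C → Y}
  (hlt : ∀ i, ∀ n ≤ i, ∀ m ≤ i, ∀ x x' y y' : C, (∀ j < b (i + 1), x j = x' j) →
      (∃ j < 2 * b i + 1, y j ≠ y' j) → dist (ψ n x) (ψ n x') < dist (ψ m y) (ψ m y'))

include hb hlt in
/-- A portion of the `m`-th set is not a non-expansive image of a subset of the `n`-th set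
(`n ≠ m`), nor of a subset of a disjoint portion of the `m`-th set. -/
lemma req {m n : ℕ} {s : List Bool} {E : Set C} (hE : n ≠ m ∨ Disjoint E (Cyl s)) {x0 : C}
    (hx0 : x0 ∈ T b m) (hx0s : x0 ∈ Cyl s) (z : C → C)
    (hz : ∀ x ∈ T b m ∩ Cyl s, z x ∈ T b n ∩ E)
    (hd : ∀ x ∈ T b m ∩ Cyl s, ∀ x' ∈ T b m ∩ Cyl s,
      dist (ψ m x) (ψ m x') ≤ dist (ψ n (z x)) (ψ n (z x'))) : False := by
  have hstr := b_strict hb
  obtain ⟨i, hi, hcode⟩ := code_surj m s (m + n + s.length)
  have hbi : i ≤ b i := hstr.id_le i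
  let v : (Fin (b i + 1) → Bool) → C := fun w j =>
    if h : j - b i < b i + 1 then w ⟨j - b i, h⟩ else false
  let r : (Fin (b i + 1) → Bool) → (Fin (b i) → Bool) := fun w k => z (modi x0 (b i) (v w)) k
  have hcard : Fintype.card (Fin (b i) → Bool) < Fintype.card (Fin (b i + 1) → Bool) := by
    simp only [Fintype.card_fun, Fintype.card_bool, Fintype.card_fin]
    exact Nat.pow_lt_pow_right (by norm_num) (by omega)
  obtain ⟨w, w', hww, hr⟩ := Fintype.exists_ne_map_eq_of_card_lt r hcard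
  have hmem : ∀ w, modi x0 (b i) (v w) ∈ T b m ∩ Cyl s := fun w =>
    modi_mem hb hcode (by omega) hx0 hx0s _
  -- the two sources agree up to `b (i + 1)`
  have hzero : ∀ w, ∀ j, b i ≤ j → j < b (i + 1) → z (modi x0 (b i) (v w)) j = false := by
    intro w j h1 h2
    by_contra hcon
    rw [Bool.not_eq_false] at hcon
    obtain ⟨h3, h4⟩ := hz _ (hmem w)
    obtain ⟨-, c2, -, c4⟩ := h3 i j h1 h2 hcon
    rw [hcode] at c2 c4
    rcases hE with h | h
    · exact h c2.symm
    · exact Set.disjoint_left.1 h h4 c4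
  have hag : ∀ j < b (i + 1), z (modi x0 (b i) (v w)) j = z (modi x0 (b i) (v w')) j := by
    intro j hj
    rcases lt_or_ge j (b i) with h | h
    · exact congrFun hr ⟨j, h⟩
    · rw [hzero w j h hj, hzero w' j h hj]
  have hdiff : ∃ j < 2 * b i + 1, modi x0 (b i) (v w) j ≠ modi x0 (b i) (v w') j := by
    obtain ⟨k, hk⟩ := Function.ne_iff.1 hww
    have hk2 := k.2
    refine ⟨b i + k, by omega, ?_⟩
    have hv : ∀ w, modi x0 (b i) (v w) (b i + k) = w k := by
      intro w
      unfold modi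
      rw [if_neg (by omega), if_pos (by omega)]
      simp only [v, Nat.add_sub_cancel_left]
      rw [dif_pos hk2]
    rw [hv, hv]
    exact hk
  have h1 := hlt i n (by omega) m (by omega) _ _ _ _ hag hdiff
  have h2 := hd _ (hmem w) _ (hmem w')
  linarith

include hb in
lemma T_not_countable (m : ℕ) : ¬ (T b m).Countable := by
  have hstr := b_strict hb
  have h1 : ∀ N, ∃ i ≥ N, code i = (m, []) := code_surj m []
  choose I hI1 hI2 using h1
  -- an increasing sequence of blocks
  let k : ℕ → ℕ := fun n => Nat.rec (I 0) (fun _ p => I (p + 1)) n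
  have hk : StrictMono k := strictMono_nat_of_lt_succ fun n => by
    have : k (n + 1) = I (k n + 1) := rfl
    have := hI1 (k n + 1)
    omega
  have hkc : ∀ n, code (k n) = (m, []) := by
    intro n
    cases n with
    | zero => exact hI2 _
    | succ n => exact hI2 _
  classical
  let G : C → C := fun v j => if ∃ n, j = b (k n) ∧ v n = true then true else false
  have hG : ∀ v, G v ∈ T b m := by
    intro v i j h1 h2 h3
    simp only [G] at h3
    split_ifs at h3 with h4
    obtain ⟨n, rfl, hn⟩ := h4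
    have h5 : i = k n := block_unique hb h1 h2 le_rfl (hstr (Nat.lt_succ_self _))
    rw [h5, hkc n]
    refine ⟨by omega, rfl, by simp, ?_⟩
    intro j hj
    simp at hj
  have hGi : Function.Injective G := by
    intro v v' hvv
    funext n
    have h1 := congrFun hvv (b (k n))
    have h2 : ∀ v : C, G v (b (k n)) = v n := by
      intro v
      simp only [G]
      cases hv : v n
      · rw [if_neg]
        rintro ⟨n', h3, h4⟩
        have h5 := hk.injective (hstr.injective h3)
        rw [h5, h4] at hv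
        exact Bool.false_ne_true hv.symm
      · rw [if_pos ⟨n, rfl, hv⟩]
    rwa [h2, h2] at h1
  intro hc
  have h2 : (range G).Countable := hc.mono (by rintro _ ⟨v, rfl⟩; exact hG v)
  have h3 : (univ : Set C).Countable := by
    rw [← image_univ] at h2
    exact (Set.countable_of_injective_of_countable_image hGi.injOn h2)
  have h4 : Countable C := Set.countable_univ_iff.1 h3
  have h5 := Cardinal.mk_le_aleph0 (α := C)
  have h6 : Cardinal.mk C = Cardinal.continuum := by
    rw [← Cardinal.power_def, Cardinal.mk_bool, Cardinal.mk_nat, Cardinal.two_power_aleph0]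
  rw [h6] at h5
  exact absurd h5 (not_le.2 Cardinal.aleph0_lt_continuum)

include hb hlt in
lemma rigid (hc : ∀ n, Continuous (ψ n)) (hi : ∀ n, Function.Injective (ψ n)) {f : Y → Y}
    (hinj : InjOn f (⋃ m, ψ m '' T b m))
    (hsurj : SurjOn f (⋃ m, ψ m '' T b m) (⋃ m, ψ m '' T b m))
    (hne : ∀ p ∈ ⋃ m, ψ m '' T b m, ∀ q ∈ ⋃ m, ψ m '' T b m, dist (f p) (f q) ≤ dist p q) :
    ∀ p ∈ ⋃ m, ψ m '' T b m, f p = p := by
  have hmem : ∀ m, ∀ x ∈ T b m, ψ m x ∈ ⋃ m, ψ m '' T b m := fun m x hx =>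
    mem_iUnion.2 ⟨m, x, hx, rfl⟩
  have hcon : ContinuousOn f (⋃ m, ψ m '' T b m) := by
    have : LipschitzOnWith 1 f (⋃ m, ψ m '' T b m) := by
      apply LipschitzOnWith.of_dist_le_mul
      intro p hp q hq
      rw [NNReal.coe_one, one_mul]
      exact hne p hp q hq
    exact this.continuousOn
  have hlim : ∀ (m : ℕ) (y : ℕ → C) (a : C), (∀ n, y n ∈ T b m) → a ∈ T b m →
      Tendsto y atTop (𝓝 a) → Tendsto (fun n => f (ψ m (y n))) atTop (𝓝 (f (ψ m a))) := by
    intro m y a hy ha hya
    refine Tendsto.comp (hcon _ (hmem m a ha)) ?_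
    refine tendsto_nhdsWithin_iff.2 ⟨((hc m).tendsto a).comp hya, ?_⟩
    exact Eventually.of_forall fun n => hmem m _ (hy n)
  have htend : ∀ (x : C) (y : ℕ → C), (∀ l, y l ∈ Cyl (ini x l)) → Tendsto y atTop (𝓝 x) := by
    intro x y hy
    rw [tendsto_pi_nhds]
    intro j
    refine tendsto_const_nhds.congr' ?_
    filter_upwards [eventually_gt_atTop j] with l hl
    exact (mem_ini.1 (hy l) j hl).symm
  -- fixed points in every portion
  have key : ∀ m s, (T b m ∩ Cyl s).Nonempty → ∃ x ∈ T b m ∩ Cyl s, f (ψ m x) = ψ m x := by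
    intro m s hms
    by_contra hno
    push Not at hno
    have hZc : IsCompact (T b m ∩ Cyl s) := ((isClosed_T b m).inter (isClosed_Cyl s)).isCompact
    have : CompactSpace (T b m ∩ Cyl s : Set C) := isCompact_iff_compactSpace.1 hZc
    have hZn : Nonempty (T b m ∩ Cyl s : Set C) := hms.to_subtype
    set E : ℕ → Set (T b m ∩ Cyl s : Set C) := fun n =>
      {x | ∃ y ∈ T b n, f (ψ n y) = ψ m x} with hE
    have hEc : ∀ n, IsClosed (E n) := by
      intro n
      have h1 : IsCompact ((fun y => f (ψ n y)) '' T b n) := by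
        refine (isClosed_T b n).isCompact.image_of_continuousOn ?_
        exact hcon.comp (hc n).continuousOn fun x hx => hmem n x hx
      have h2 : E n = (fun x : (T b m ∩ Cyl s : Set C) => ψ m x) ⁻¹'
          ((fun y => f (ψ n y)) '' T b n) := by
        ext x; simp [hE]
      rw [h2]
      exact h1.isClosed.preimage ((hc m).comp continuous_subtype_val)
    have hEU : ⋃ n, E n = univ := by
      rw [eq_univ_iff_forall]
      rintro ⟨x, hx⟩
      obtain ⟨q, hq, hqx⟩ := hsurj (hmem m x hx.1)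
      obtain ⟨n, y, hy, rfl⟩ := mem_iUnion.1 hq
      exact mem_iUnion.2 ⟨n, y, hy, hqx⟩
    obtain ⟨n, x, hx⟩ := nonempty_interior_of_iUnion_of_closed hEc hEU
    obtain ⟨U, hU, hUE⟩ := isOpen_induced_iff.1 (isOpen_interior (s := E n))
    have hxU : (x : C) ∈ U := by
      have : x ∈ Subtype.val ⁻¹' U := by rw [hUE]; exact hx
      exact this
    obtain ⟨l, hl⟩ := exists_ini hU hxU
    obtain ⟨x, hxT, hxs⟩ := x
    simp only at hxU hl
    -- a smaller cylinder
    set l' := l + s.length with hl'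
    have hs' : ∀ l'' ≥ l', ∀ x' ∈ T b m ∩ Cyl (ini x l''), x' ∈ T b m ∩ Cyl s ∧
        ∃ y ∈ T b n, f (ψ n y) = ψ m x' := by
      rintro l'' hl'' x' ⟨h1, h2⟩
      rw [mem_ini] at h2
      have h3 : x' ∈ Cyl s := Cyl_congr (fun j hj => (h2 j (by omega)).symm) hxs
      refine ⟨⟨h1, h3⟩, ?_⟩
      have h4 : x' ∈ U := hl (mem_ini.2 fun j hj => h2 j (by omega))
      have h5 : (⟨x', h1, h3⟩ : (T b m ∩ Cyl s : Set C)) ∈ interior (E n) := by
        rw [← hUE]; exact h4
      have h6 : (⟨x', h1, h3⟩ : (T b m ∩ Cyl s : Set C)) ∈ E n := interior_subset h5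
      exact h6
    have hxini : ∀ l, x ∈ Cyl (ini x l) := fun l => mem_ini.2 fun _ _ => rfl
    -- `n = m`
    have hnm : n = m := by
      by_contra hnm
      have h1 : ∀ x' : C, ∃ y : C, x' ∈ T b m ∩ Cyl (ini x l') → y ∈ T b n ∧ f (ψ n y) = ψ m x' := by
        intro x'
        by_cases hx' : x' ∈ T b m ∩ Cyl (ini x l')
        · obtain ⟨-, y, hy⟩ := hs' l' le_rfl x' hx'
          exact ⟨y, fun _ => hy⟩
        · exact ⟨x', fun h => absurd h hx'⟩
      choose z hz using h1
      refine req hb hlt (E := univ) (Or.inl hnm) hxT (hxini l') z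
        (fun x' hx' => ⟨(hz x' hx').1, mem_univ _⟩) fun x' hx' x'' hx'' => ?_
      rw [← (hz x' hx').2, ← (hz x'' hx'').2]
      exact hne _ (hmem n _ (hz x' hx').1) _ (hmem n _ (hz x'' hx'').1)
    subst hnm
    obtain ⟨-, y, hy, hyx⟩ := hs' l' le_rfl x ⟨hxT, hxini l'⟩
    have hyx' : y ≠ x := by
      rintro rfl
      exact hno y ⟨hxT, hxs⟩ hyx
    obtain ⟨j, hj⟩ := Function.ne_iff.1 hyx'
    -- the sources near `x` stay away from `x`
    have hsep : ∃ l'' ≥ l' + j + 1, ∀ x' ∈ T b n ∩ Cyl (ini x l''), ∀ y' ∈ T b n,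
        f (ψ n y') = ψ n x' → y' j ≠ x j := by
      by_contra hcon'
      push Not at hcon'
      have h1 : ∀ l'' : ℕ, ∃ x' y' : C, (x' ∈ T b n ∧ x' ∈ Cyl (ini x l'')) ∧ y' ∈ T b n ∧
          f (ψ n y') = ψ n x' ∧ y' j = x j := by
        intro l''
        obtain ⟨x', hx', y', hy', h2, h3⟩ := hcon' (l'' + (l' + j + 1)) (by omega)
        refine ⟨x', y', ⟨hx'.1, mem_ini.2 fun k hk => mem_ini.1 hx'.2 k (by omega)⟩, hy', h2, h3⟩
      choose xs ys h2 h3 h4 h5 using h1
      obtain ⟨a, ha, φ, hφ, hya⟩ := (isClosed_T b n).isCompact.tendsto_subseq h3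
      have h6 : Tendsto (fun l => ψ n (xs l)) atTop (𝓝 (ψ n x)) :=
        ((hc n).tendsto x).comp (htend x xs fun l => (h2 l).2)
      have h7 := hlim n (ys ∘ φ) a (fun l => h3 _) ha hya
      have h8 : f (ψ n a) = ψ n x := by
        refine tendsto_nhds_unique h7 ?_
        refine (h6.comp hφ.tendsto_atTop).congr fun l => ?_
        exact (h4 (φ l)).symm
      have h9 : a = y := hi n (hinj (hmem n a ha) (hmem n y hy) (h8.trans hyx.symm))
      have h10 : a j = x j := by
        have h11 : Tendsto (fun l => (ys ∘ φ) l j) atTop (𝓝 (a j)) :=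
          (tendsto_pi_nhds.1 hya) j
        refine tendsto_nhds_unique h11 ?_
        refine tendsto_const_nhds.congr fun l => ?_
        exact (h5 (φ l)).symm
      rw [h9] at h10
      exact hj h10
    obtain ⟨l'', hl'', hsep⟩ := hsep
    have h1 : ∀ x' : C, ∃ y : C, x' ∈ T b n ∩ Cyl (ini x l'') → y ∈ T b n ∧ f (ψ n y) = ψ n x' := by
      intro x'
      by_cases hx' : x' ∈ T b n ∩ Cyl (ini x l'')
      · obtain ⟨-, y, hy⟩ := hs' l'' (by omega) x' hx'
        exact ⟨y, fun _ => hy⟩
      · exact ⟨x', fun h => absurd h hx'⟩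
    choose z hz using h1
    refine req hb hlt (E := {w | w j ≠ x j}) (Or.inr ?_) hxT (hxini l'') z
      (fun x' hx' => ⟨(hz x' hx').1, hsep x' hx' _ (hz x' hx').1 (hz x' hx').2⟩)
      fun x' hx' x'' hx'' => ?_
    · rw [Set.disjoint_left]
      intro w hw hw'
      exact hw (mem_ini.1 hw' j (by omega))
    · rw [← (hz x' hx').2, ← (hz x'' hx'').2]
      exact hne _ (hmem n _ (hz x' hx').1) _ (hmem n _ (hz x'' hx'').1)
  -- conclusion
  intro p hp
  obtain ⟨m, x, hx, rfl⟩ := mem_iUnion.1 hp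
  have h1 : ∀ l, ∃ x' ∈ T b m ∩ Cyl (ini x l), f (ψ m x') = ψ m x' := fun l =>
    key m _ ⟨x, hx, mem_ini.2 fun _ _ => rfl⟩
  choose xs h2 h3 using h1
  have h4 := htend x xs fun l => (h2 l).2
  have h5 := hlim m xs x (fun l => (h2 l).1) hx h4
  refine tendsto_nhds_unique h5 ?_
  exact (((hc m).tendsto x).comp h4).congr fun l => (h3 l).symm

end main

/-- **Main theorem.** Every k-crowded separable metric space `Y` contains a subspace `X` which
is dense in `Y`, sigma-compact, k-crowded and plastic; moreover the identity is the only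
non-expansive bijection of `X`. -/
theorem result (Y : Type u) [MetricSpace Y] [TopologicalSpace.SeparableSpace Y]
    (hY : KCrowded Y) :
    ∃ X : Set Y, Dense X ∧ IsSigmaCompact X ∧ KCrowded X ∧ Plastic X ∧
      ∀ f : X → X, Function.Bijective f → (∀ x y, dist (f x) (f y) ≤ dist x y) → f = id := by
  rcases isEmpty_or_nonempty Y with hemp | hne
  · refine ⟨∅, fun y => (hemp.false y).elim, isSigmaCompact_empty, ?_, ?_, ?_⟩
    · rintro U - ⟨x, -⟩
      exact x.2.elim
    · intro f _ _ x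
      exact x.2.elim
    · intro f _ _
      funext x
      exact x.2.elim
  have : SecondCountableTopology Y := UniformSpace.secondCountable_of_separable Y
  -- an enumeration of a basis
  have hBne : (TopologicalSpace.countableBasis Y).Nonempty := by
    obtain ⟨y⟩ := hne
    obtain ⟨B, hB, -, -⟩ := (TopologicalSpace.isBasis_countableBasis Y).exists_subset_of_mem_open
      (mem_univ y) isOpen_univ
    exact ⟨B, hB⟩
  obtain ⟨O, hO⟩ := (TopologicalSpace.countable_countableBasis Y).exists_eq_range hBne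
  have hOB : ∀ n, O n ∈ TopologicalSpace.countableBasis Y := fun n => by rw [hO]; exact ⟨n, rfl⟩
  have hOo : ∀ n, IsOpen (O n) := fun n =>
    (TopologicalSpace.isBasis_countableBasis Y).isOpen (hOB n)
  have hOn : ∀ n, (O n).Nonempty := fun n => TopologicalSpace.nonempty_of_mem_countableBasis (hOB n)
  have hOU : ∀ U : Set Y, IsOpen U → ∀ y ∈ U, ∃ n, O n ⊆ U := by
    intro U hU y hy
    obtain ⟨B, hB, -, hBU⟩ :=
      (TopologicalSpace.isBasis_countableBasis Y).exists_subset_of_mem_open hy hU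
    rw [hO] at hB
    obtain ⟨n, rfl⟩ := hB
    exact ⟨n, hBU⟩
  -- Cantor sets in the basic open sets
  have hψ : ∀ n, ∃ ψ : C → Y, Continuous ψ ∧ Function.Injective ψ ∧ ∀ x, ψ x ∈ O n := by
    intro n
    obtain ⟨K, hKO, hK, hKc⟩ := hY (O n) (hOo n) (hOn n)
    have : CompactSpace K := isCompact_iff_compactSpace.1 hK
    have h1 : ¬ (univ : Set K).Countable := by
      intro h
      apply hKc
      have : Countable K := Set.countable_univ_iff.1 h
      exact Set.countable_coe_iff.1 this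
    obtain ⟨g, -, hgc, hgi⟩ := isClosed_univ.exists_nat_bool_injection_of_not_countable h1
    exact ⟨fun x => g x, continuous_subtype_val.comp hgc, Subtype.val_injective.comp hgi,
      fun x => hKO (g x).2⟩
  choose ψ hc hi hψO using hψ
  obtain ⟨b, hb0, hb, hlt⟩ := exists_b hc hi
  set X : Set Y := ⋃ m, ψ m '' T b m with hX
  have hTn : ∀ m, (T b m).Nonempty := by
    intro m
    by_contra h
    rw [Set.not_nonempty_iff_eq_empty] at h
    apply T_not_countable hb m
    rw [h]
    exact countable_empty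
  have hid : ∀ f : X → X, Function.Bijective f → (∀ x y, dist (f x) (f y) ≤ dist x y) →
      f = id := by
    intro f hf hne'
    classical
    set f' : Y → Y := fun y => if h : y ∈ X then f ⟨y, h⟩ else y with hf'
    have hf'X : ∀ (y : Y) (h : y ∈ X), f' y = f ⟨y, h⟩ := fun y h => by
      simp only [hf']; rw [dif_pos h]
    have h1 := rigid hb hlt hc hi (f := f') ?_ ?_ ?_
    · funext ⟨y, hy⟩
      apply Subtype.ext
      rw [← hf'X y hy]
      exact h1 y hy
    · intro p hp q hq hpq
      rw [hf'X p hp, hf'X q hq] at hpq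
      exact congrArg Subtype.val (hf.1 (Subtype.ext hpq))
    · intro q hq
      obtain ⟨⟨p, hp⟩, hpq⟩ := hf.2 ⟨q, hq⟩
      exact ⟨p, hp, by rw [hf'X p hp, hpq]⟩
    · intro p hp q hq
      rw [hf'X p hp, hf'X q hq]
      exact hne' ⟨p, hp⟩ ⟨q, hq⟩
  refine ⟨X, ?_, ?_, ?_, ?_, hid⟩
  · rw [dense_iff_inter_open]
    rintro U hU ⟨y, hy⟩
    obtain ⟨n, hn⟩ := hOU U hU y hy
    obtain ⟨x, hx⟩ := hTn n
    exact ⟨ψ n x, hn (hψO n x), mem_iUnion.2 ⟨n, x, hx, rfl⟩⟩
  · exact ⟨fun m => ψ m '' T b m, fun m => (isClosed_T b m).isCompact.image (hc m), rfl⟩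
  · intro U hU hUn
    obtain ⟨V, hV, rfl⟩ := isOpen_induced_iff.1 hU
    obtain ⟨y, hy⟩ := hUn
    obtain ⟨n, hn⟩ := hOU V hV y hy
    refine ⟨Subtype.val ⁻¹' (ψ n '' T b n), ?_, ?_, ?_⟩
    · rintro ⟨z, hz⟩ ⟨x, hx, hxz⟩
      simp only at hxz
      subst hxz
      exact hn (hψO n x)
    · rw [Topology.IsInducing.subtypeVal.isCompact_iff, Subtype.image_preimage_coe,
        inter_eq_right.2 (subset_iUnion (fun m => ψ m '' T b m) n)]
      exact (isClosed_T b n).isCompact.image (hc n)
    · intro hcount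
      apply T_not_countable hb n
      have h1 := hcount.image (Subtype.val : X → Y)
      rw [Subtype.image_preimage_coe,
        inter_eq_right.2 (subset_iUnion (fun m => ψ m '' T b m) n)] at h1
      exact Set.countable_of_injective_of_countable_image (hi n).injOn h1
  · intro f hf hne'
    rw [hid f hf hne']
    exact isometry_id

end Pool.Agent.Results.MP_4aa5c9_gt.KCrowdedPlastic
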